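import Pool.Agent.SpiralKnots.Core

/-!
# The parameters `p, q` of a spiral knot are unique

Knots are encoded as closures of braids, i.e. as elements of the braid groups `B_1, B_2, …`
(Artin's presentation) modulo Markov equivalence, orientation reversal of the knot and mirror image.

Proof.  For a closed homogeneous braid the two lowest coefficients in `h = z⁻²` of its normalised
HOMFLY type polynomial (obtained here from the R-matrices of quantum `sl_N`, all `N ≥ 1`, with
`v = q^{-N}` fixed) are computed by a reduction of words.  For the spiral braid they show that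
`(p-1)(q-1)`, the number `r₊` of positive runs of `ε`, the number `r₋` of negative runs of `ε` and
`s (q-1)`, `s = r₊ + r₋ - 1` the number of sign changes, are invariants.  If `s ≥ 1` this determines
`q` and `p`.  If `s = 0` the knot is a torus knot, and `p q` is read off from the colourings by the
Alexander quandles at roots of unity.
-/

namespace Pool.Agent.Results.MP_eb26ae_gt.SpiralUniqueness

open Pool.Agent.SpiralKnots

/-- sign pattern as a function on all naturals -/
def eb {p : ℕ} (ε : Fin (p - 1) → ℤˣ) : ℕ → Bool :=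
  fun k => if h : k < p - 1 then decide (ε ⟨k, h⟩ = 1) else true

lemma spiral_eq (p q : ℕ) (ε : Fin (p - 1) → ℤˣ) :
    spiral p q ε = ⟨p - 1, bw (eb ε) (wpow q (List.finRange (p - 1)))⟩ := by
  unfold spiral
  rw [bw_wpow]
  have : (List.ofFn fun i => (sg i : Braid (p - 1)) ^ (ε i : ℤ)).prod
      = bw (eb ε) (List.finRange (p - 1)) := by
    unfold bw
    rw [List.ofFn_eq_map]
    congr 1
    apply List.map_congr_left
    intro i _
    have h1 : eb ε i.val = decide (ε i = 1) := by
      unfold eb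
      rw [dif_pos i.2]
    rw [h1]
    rcases Int.units_eq_one_or (ε i) with h | h
    · simp [h]
    · simp [h]
  rw [this]

lemma eb_neg {p : ℕ} (ε : Fin (p - 1) → ℤˣ) {k : ℕ} (hk : k < p - 1) :
    (!eb ε k) = eb (fun i => -ε i) k := by
  unfold eb
  rw [dif_pos hk, dif_pos hk]
  rcases Int.units_eq_one_or (ε ⟨k, hk⟩) with h | h
  · simp [h]
  · simp [h]

lemma torus_of_sn {p q : ℕ} (hp : 2 ≤ p) (hq : 2 ≤ q) (hpq : p.Coprime q)
    (ε : Fin (p - 1) → ℤˣ) (h : sn (p - 1) (eb ε) = 0) : IsTorusKnot (spiral p q ε) := by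
  refine ⟨p, q, hp, hq, hpq, ?_⟩
  have hc := const_of_sn h
  rw [spiral_eq, spiral_eq]
  have h1 : ∀ k < p - 1, eb (fun _ : Fin (p - 1) => (1 : ℤˣ)) k = true := by
    intro k hk
    unfold eb
    rw [dif_pos hk]
    simp
  cases h0 : eb ε 0
  · right; left
    unfold mirrorOf
    rw [mirror_bw]
    have : bw (eb ε) (wpow q (List.finRange (p - 1)))
        = bw (fun k => !eb (fun _ : Fin (p - 1) => (1 : ℤˣ)) k)
          (wpow q (List.finRange (p - 1))) :=
      bw_congr (fun k hk => by rw [hc k hk, h0, h1 k hk]; rfl) _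
    rw [this]
    exact Relation.EqvGen.refl _
  · left
    have : bw (eb ε) (wpow q (List.finRange (p - 1)))
        = bw (eb fun _ : Fin (p - 1) => (1 : ℤˣ)) (wpow q (List.finRange (p - 1))) :=
      bw_congr (fun k hk => by rw [hc k hk, h0, h1 k hk]) _
    rw [this]
    exact Relation.EqvGen.refl _

/-- **Uniqueness of the parameters of a spiral knot.**  If `S(p,q,ε) = S(p',q',ε')` as unoriented
knots up to mirror image, then `(p,q) = (p',q')`, or the knot is a torus knot and
`(p,q) = (q',p')`. -/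
theorem result (p q p' q' : ℕ) (hp : 2 ≤ p) (hq : 2 ≤ q) (hpq : p.Coprime q)
    (hp' : 2 ≤ p') (hq' : 2 ≤ q') (hpq' : p'.Coprime q')
    (ε : Fin (p - 1) → ℤˣ) (ε' : Fin (p' - 1) → ℤˣ)
    (h : SameKnot (spiral p q ε) (spiral p' q' ε')) :
    (p = p' ∧ q = q') ∨ (IsTorusKnot (spiral p q ε) ∧ p = q' ∧ q = p') := by
  have hm : p - 1 ≠ 0 := by omega
  have hm' : p' - 1 ≠ 0 := by omega
  have e1 : p - 1 + 1 = p := by omega
  have e2 : p' - 1 + 1 = p' := by omega
  have hc : (p - 1 + 1).Coprime q := by rw [e1]; exact hpq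
  have hc' : (p' - 1 + 1).Coprime q' := by rw [e2]; exact hpq'
  have key : ∃ (L' : List (Fin (p' - 1))) (η : ℕ → Bool), IsPer (p' - 1) L' ∧
      SameClosure ⟨p - 1, bw (eb ε) (wpow q (List.finRange (p - 1)))⟩
        ⟨p' - 1, bw η (wpow q' L')⟩ := by
    unfold SameKnot at h
    rw [spiral_eq, spiral_eq] at h
    unfold mirrorOf reverseOf at h
    dsimp only at h
    rw [reverse_bw, mirror_bw, mirror_bw, wpow_reverse] at h
    rcases h with h | h | h | h
    · exact ⟨_, _, IsPer.inc, h⟩
    · exact ⟨_, _, IsPer.inc, h⟩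
    · exact ⟨_, _, IsPer.dec, h⟩
    · exact ⟨_, _, IsPer.dec, h⟩
  obtain ⟨L', η, hL', hS⟩ := key
  rcases core hm hm' hq hq' hc hc' IsPer.inc hL' _ _ hS with ⟨h1, h2⟩ | ⟨h1, h2, h3⟩
  · left; exact ⟨by omega, h2⟩
  · right
    exact ⟨torus_of_sn hp hq hpq ε h1, by omega, by omega⟩

end Pool.Agent.Results.MP_eb26ae_gt.SpiralUniqueness
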